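import Pool.Agent.Q50.Z27.Main

namespace Pool.Agent.Results.MP_147277_co.NoGood27

/-- `|[x]_n|`: the absolute value of the least absolute residue of `x` modulo `n`, that is, the
distance from `x` to the nearest multiple of `n`. -/
def absRes (n : ℕ) (x : ZMod n) : ℕ := x.valMinAbs.natAbs

/-- Good bijections of `ℤ/n`: every triple `(a, b, c)`, not all equal, with `|[a + c - 2b]_n| ≤ 1`
is sent to a triple with `|[π(a) + π(c) - 2π(b)]_n| ≥ 2`. -/
def IsGood (n : ℕ) (π : ZMod n → ZMod n) : Prop :=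
  Function.Bijective π ∧ ∀ a b c : ZMod n, ¬ (a = b ∧ b = c) → absRes n (a + c - 2 * b) ≤ 1 →
    2 ≤ absRes n (π a + π c - 2 * π b)

/-- There is no good permutation of `ℤ/27`. -/
theorem result : ¬ ∃ π : ZMod 27 → ZMod 27, IsGood 27 π := by
  rintro ⟨π, hb, h⟩
  have key : ∀ e : ZMod 27, Pool.Agent.Q50.Z27.near e → absRes 27 e ≤ 1 := by
    unfold absRes
    decide
  refine Pool.Agent.Q50.Z27.no_good π ⟨hb, fun a b c h1 h2 => ?_⟩
  by_contra hne
  have := h a b c hne (key _ h1)
  have := key _ h2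
  omega

end Pool.Agent.Results.MP_147277_co.NoGood27
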